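import Pool.Agent.Run7.h811.AX.LIN

set_option autoImplicit false

/-! Project AX, piece FTF -/

open MeasureTheory Set Filter Topology
open scoped ENNReal ContDiff FourierTransform

namespace Run7.h811.AX

open Pool.Agent.Run7.h148.AX

theorem cc_c {ρ : E3 → ℝ} (h : ContDiff ℝ ∞ ρ) : ContDiff ℝ ∞ (fun x => ((ρ x : ℝ) : ℂ)) :=
  Complex.ofRealCLM.contDiff.comp h

theorem hcs_c {ρ : E3 → ℝ} (h : HasCompactSupport ρ) :
    HasCompactSupport (fun x => ((ρ x : ℝ) : ℂ)) :=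
  h.comp_left (g := fun r : ℝ => (r : ℂ)) (by simp)

/-- Schwartz function -/
noncomputable def sw {ρ : E3 → ℝ} (h : Cc ρ) : SchwartzMap E3 ℂ :=
  (hcs_c h.2).toSchwartzMap (cc_c h.1)

theorem sw_coe {ρ : E3 → ℝ} (h : Cc ρ) : (sw h : E3 → ℂ) = fun x => ((ρ x : ℝ) : ℂ) := rfl

theorem sw_f {ρ : E3 → ℝ} (h : Cc ρ) :
    ((𝓕 (sw h) : SchwartzMap E3 ℂ) : E3 → ℂ) = 𝓕 (fun x => ((ρ x : ℝ) : ℂ)) :=
  SchwartzMap.fourier_coe _

theorem int_c {ρ : E3 → ℝ} (h : Cc ρ) : Integrable (fun x => ((ρ x : ℝ) : ℂ)) :=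
  (sw h).integrable

theorem int_f {ρ : E3 → ℝ} (h : Cc ρ) : Integrable (𝓕 (fun x => ((ρ x : ℝ) : ℂ))) := by
  rw [← sw_f h]; exact (𝓕 (sw h) : SchwartzMap E3 ℂ).integrable

theorem cont_f {ρ : E3 → ℝ} (h : Cc ρ) : Continuous (𝓕 (fun x => ((ρ x : ℝ) : ℂ))) := by
  rw [← sw_f h]; exact (𝓕 (sw h) : SchwartzMap E3 ℂ).continuous

theorem decay {ρ : E3 → ℝ} (h : Cc ρ) (k : ℕ) : ∃ M : ℝ, 0 ≤ M ∧
    ∀ ξ, (1 + ‖ξ‖) ^ k * ‖𝓕 (fun x => ((ρ x : ℝ) : ℂ)) ξ‖ ≤ M := by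
  refine ⟨2 ^ (k, 0).1 * (Finset.Iic (k, 0)).sup
    (fun m => SchwartzMap.seminorm ℝ m.1 m.2) (𝓕 (sw h) : SchwartzMap E3 ℂ), ?_, ?_⟩
  · exact mul_nonneg (by positivity) (apply_nonneg _ _)
  · intro ξ
    have := SchwartzMap.one_add_le_sup_seminorm_apply (𝕜 := ℝ) (m := (k, 0)) (k := k) (n := 0)
      le_rfl le_rfl (𝓕 (sw h) : SchwartzMap E3 ℂ) ξ
    rw [norm_iteratedFDeriv_zero] at this
    rw [← sw_f h]
    exact this

theorem inv_f {ρ : E3 → ℝ} (h : Cc ρ) (x : E3) :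
    𝓕⁻ (fun ξ => 𝓕 (fun x => ((ρ x : ℝ) : ℂ)) ξ) x = ((ρ x : ℝ) : ℂ) := by
  have := (cc_c h.1).continuous.fourierInv_fourier_eq (int_c h) (int_f h)
  exact congrFun this x

theorem lin_f {ρ σ : E3 → ℝ} (h : Cc ρ) (h' : Cc σ) (a b : ℝ) (ξ : E3) :
    𝓕 (fun x => ((a * ρ x + b * σ x : ℝ) : ℂ)) ξ =
      (a : ℂ) * 𝓕 (fun x => ((ρ x : ℝ) : ℂ)) ξ + (b : ℂ) * 𝓕 (fun x => ((σ x : ℝ) : ℂ)) ξ := by
  rw [Real.fourier_eq, Real.fourier_eq, Real.fourier_eq, ← integral_const_mul,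
    ← integral_const_mul, ← integral_add]
  · congr 1
    funext v
    simp only [Circle.smul_def, smul_eq_mul]
    push_cast
    ring
  · exact ((Real.fourierIntegral_convergent_iff ξ).2 (int_c h)).const_mul _
  · exact ((Real.fourierIntegral_convergent_iff ξ).2 (int_c h')).const_mul _

theorem herm_f (ρ : E3 → ℝ) (ξ : E3) :
    𝓕 (fun x => ((ρ x : ℝ) : ℂ)) (-ξ) = (starRingEnd ℂ) (𝓕 (fun x => ((ρ x : ℝ) : ℂ)) ξ) := by
  rw [Real.fourier_eq, Real.fourier_eq, ← integral_conj]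
  congr 1
  funext v
  simp only [Circle.smul_def, smul_eq_mul, map_mul, Complex.conj_ofReal, inner_neg_right, neg_neg]
  congr 1
  rw [← Circle.coe_inv_eq_conj, ← AddChar.map_neg_eq_inv, neg_neg]

/-- rotation -/
noncomputable def rtE (θ : ℝ) : E3 ≃ₗᵢ[ℝ] E3 :=
  LinearIsometry.toLinearIsometryEquiv
    { toFun := rt θ
      map_add' := by
        intro x y
        ext i
        fin_cases i <;> simp [rt] <;> ring
      map_smul' := by
        intro c x
        ext i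
        fin_cases i <;> simp [rt] <;> ring
      norm_map' := by
        intro x
        rw [EuclideanSpace.norm_eq, EuclideanSpace.norm_eq]
        congr 1
        simp [rt, Fin.sum_univ_three]
        nlinarith [Real.sin_sq_add_cos_sq θ] } rfl

theorem rtE_coe (θ : ℝ) : (rtE θ : E3 → E3) = rt θ := rfl

theorem rot_f (g : E3 → ℂ) (θ : ℝ) (ξ : E3) : 𝓕 g (rt θ ξ) = 𝓕 (fun x => g (rt θ x)) ξ := by
  have := Real.fourier_comp_linearIsometry (rtE θ) g ξ
  rw [rtE_coe] at this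
  exact this.symm

theorem pd_Cc {ρ : E3 → ℝ} (h : Cc ρ) (j : Fin 3) : Cc (pd j ρ) := by
  refine ⟨pd_smooth h.1 j, ?_⟩
  exact h.2.fderiv_apply (𝕜 := ℝ) _

theorem pd_f {ρ : E3 → ℝ} (h : Cc ρ) (j : Fin 3) (ξ : E3) :
    𝓕 (fun x => ((pd j ρ x : ℝ) : ℂ)) ξ
      = 2 * Real.pi * Complex.I * (ξ j : ℂ) * 𝓕 (fun x => ((ρ x : ℝ) : ℂ)) ξ := by
  have hd : Differentiable ℝ (fun x => ((ρ x : ℝ) : ℂ)) := (cc_c h.1).differentiable (by simp)
  have hi : Integrable (fderiv ℝ (fun x => ((ρ x : ℝ) : ℂ))) := by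
    refine Continuous.integrable_of_hasCompactSupport ?_ ((hcs_c h.2).fderiv (𝕜 := ℝ))
    exact (cc_c h.1).continuous_fderiv (by simp)
  have h1 : (fun x => ((pd j ρ x : ℝ) : ℂ)) =
      fun x => fderiv ℝ (fun x => ((ρ x : ℝ) : ℂ)) x (EuclideanSpace.single j 1) := by
    funext x
    have : HasFDerivAt (fun x => ((ρ x : ℝ) : ℂ)) (Complex.ofRealCLM.comp (fderiv ℝ ρ x)) x :=
      Complex.ofRealCLM.hasFDerivAt.comp x ((dd h.1) x).hasFDerivAt
    rw [this.fderiv]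
    simp [pd]
  rw [h1, ← Real.fourier_continuousLinearMap_apply hi, Real.fourier_fderiv (int_c h) hd hi]
  rw [VectorFourier.fourierSMulRight_apply]
  have hin : (innerSL ℝ) ξ (EuclideanSpace.single j (1 : ℝ)) = ξ j := by
    rw [innerSL_apply_apply ℝ]
    simp [EuclideanSpace.inner_single_right]
  simp only [neg_apply, hin, smul_eq_mul]
  simp
  ring

theorem t_FTF : S_FTF := by
  refine ⟨?_, fun ρ h j ξ => pd_f h j ξ⟩
  intro f hf hs
  have hc : ∀ k : Fin 3, Cc (fun x => f x k) := by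
    intro k
    refine ⟨(EuclideanSpace.proj k : E3 →L[ℝ] ℝ).contDiff.comp hf, ?_⟩
    exact hs.comp_left (g := fun v : E3 => v k) (by simp)
  have hinv : ∀ x k, 𝓕⁻ (fun ξ => fth f ξ k) x = ((f x k : ℝ) : ℂ) := fun x k => inv_f (hc k) x
  refine ⟨?_, ?_, fun ξ k => herm_f _ ξ, ?_, ?_, hinv, ?_⟩
  · exact measurable_pi_lambda _ fun k => (cont_f (hc k)).measurable
  · intro k
    have key : ∀ m : ℕ, ∃ M : ℝ, 0 ≤ M ∧ ∀ ξ, (1 + ‖ξ‖) ^ m * ‖fth f ξ‖ ≤ M := by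
      intro m
      choose M hM hM' using fun i => decay (hc i) m
      refine ⟨∑ i, M i, Finset.sum_nonneg fun i _ => hM i, fun ξ => ?_⟩
      have hp : (0 : ℝ) < (1 + ‖ξ‖) ^ m := by positivity
      have : ‖fth f ξ‖ ≤ (∑ i, M i) / (1 + ‖ξ‖) ^ m := by
        refine (pi_norm_le_iff_of_nonneg
          (div_nonneg (Finset.sum_nonneg fun i _ => hM i) hp.le)).2 fun i => ?_
        rw [le_div_iff₀ hp, mul_comm]
        exact (hM' i ξ).trans (Finset.single_le_sum (fun i _ => hM i) (Finset.mem_univ i))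
      rw [le_div_iff₀ hp] at this
      linarith
    obtain ⟨M1, h1, h1'⟩ := key k
    obtain ⟨M2, h2, h2'⟩ := key (k + 4)
    have conv : ∀ ξ, wk k ξ * ‖fth f ξ‖ₑ = ENNReal.ofReal ((1 + ‖ξ‖) ^ k * ‖fth f ξ‖) := by
      intro ξ
      rw [wk, ENNReal.ofReal_mul (by positivity), ofReal_norm]
    have hb : Integrable fun ξ : E3 => M2 * (1 + ‖ξ‖) ^ (-(4 : ℝ)) := by
      refine (integrable_one_add_norm ?_).const_mul _
      simp
      norm_num
    refine ⟨Real.toNNReal M1 + Real.toNNReal (∫ ξ : E3, M2 * (1 + ‖ξ‖) ^ (-(4 : ℝ))), ?_, ?_⟩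
    · calc (∫⁻ ξ, wk k ξ * ‖fth f ξ‖ₑ) ≤ ∫⁻ ξ : E3, ENNReal.ofReal (M2 * (1 + ‖ξ‖) ^ (-(4 : ℝ))) := by
            refine lintegral_mono fun ξ => ?_
            rw [conv]
            refine ENNReal.ofReal_le_ofReal ?_
            have hp : (0 : ℝ) < 1 + ‖ξ‖ := by positivity
            rw [Real.rpow_neg hp.le, ← div_eq_mul_inv, le_div_iff₀ (by positivity)]
            have e4 : (1 + ‖ξ‖) ^ (4 : ℝ) = (1 + ‖ξ‖) ^ 4 := by norm_cast
            rw [e4]
            have := h2' ξ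
            rw [pow_add] at this
            linarith
        _ = ENNReal.ofReal (∫ ξ : E3, M2 * (1 + ‖ξ‖) ^ (-(4 : ℝ))) := by
            rw [ofReal_integral_eq_lintegral_ofReal hb]
            exact Eventually.of_forall fun ξ => by positivity
        _ ≤ _ := by
            rw [ENNReal.coe_add]
            exact le_add_left (le_of_eq rfl)
    · intro ξ
      rw [conv, ENNReal.coe_add]
      exact le_add_right (ENNReal.ofReal_le_ofReal (h1' ξ))
  · intro hax θ ξ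
    funext k
    have e : fth f (rt θ ξ) k = 𝓕 (fun x => (((rt θ (f x)) k : ℝ) : ℂ)) ξ := by
      unfold fth
      rw [rot_f]
      have : (fun x => ((f (rt θ x) k : ℝ) : ℂ)) = fun x => (((rt θ (f x)) k : ℝ) : ℂ) := by
        funext x
        rw [hax θ x]
      rw [this]
    rw [e]
    fin_cases k
    · have := lin_f (hc 0) (hc 1) (Real.cos θ) (-Real.sin θ) ξ
      simp [rt, rc, fth] at this ⊢
      simpa [sub_eq_add_neg] using this
    · have := lin_f (hc 0) (hc 1) (Real.sin θ) (Real.cos θ) ξ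
      simp [rt, rc, fth] at this ⊢
      simpa using this
    · simp [rt, rc, fth]
  · intro hdiv ξ
    have h0 : ∀ j : Fin 3, Cc (pd j fun y => f y j) := fun j => pd_Cc (hc j) j
    have e1 : 𝓕 (fun x => (((∑ j, pd j (fun y => f y j) x) : ℝ) : ℂ)) ξ =
        ∑ j, 𝓕 (fun x => ((pd j (fun y => f y j) x : ℝ) : ℂ)) ξ := by
      simp only [Real.fourier_eq]
      rw [← integral_finsetSum]
      · congr 1
        funext v
        push_cast
        rw [Finset.smul_sum]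
      · intro j _
        exact (Real.fourierIntegral_convergent_iff ξ).2 (int_c (h0 j))
    have e2 : 𝓕 (fun x => (((∑ j, pd j (fun y => f y j) x) : ℝ) : ℂ)) ξ = 0 := by
      simp only [hdiv]
      rw [Real.fourier_eq]
      simp
    rw [e2] at e1
    have e3 : ∀ j : Fin 3, 𝓕 (fun x => ((pd j (fun y => f y j) x : ℝ) : ℂ)) ξ =
        2 * Real.pi * Complex.I * ((ξ j : ℂ) * fth f ξ j) := by
      intro j
      rw [pd_f (hc j) j ξ]
      unfold fth
      ring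
    simp only [e3] at e1
    rw [← Finset.mul_sum] at e1
    have hne : (2 * Real.pi * Complex.I : ℂ) ≠ 0 := by
      simp [Real.pi_ne_zero]
    have := mul_eq_zero.1 e1.symm
    exact this.resolve_left hne
  · funext x
    ext k
    unfold phy
    simp only [hinv, Complex.ofReal_re]

end Run7.h811.AX
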