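import Pool.Agent.Run7.h148.AX.Stm2

set_option autoImplicit false

/-! Project AX, piece LIN -/

open MeasureTheory Set Filter Topology
open scoped ENNReal ContDiff FourierTransform

namespace Run7.h811.AX

open Pool.Agent.Run7.h148.AX

theorem NN_pos (n : ℕ) : 0 < NN n := by unfold NN; positivity

theorem time_deriv (ν : ℝ) (q : ℤ) (l j n : ℕ) (t A : ℝ) :
    HasDerivAt (fun s => NN n ^ q * ta ν n s ^ l * Real.exp (-(j * ta ν n s)) * A)
      (ν * l * (NN n ^ (q + 2) * ta ν n t ^ (l - 1) * Real.exp (-(j * ta ν n t)) * A)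
        - ν * j * (NN n ^ (q + 2) * ta ν n t ^ l * Real.exp (-(j * ta ν n t)) * A)) t := by
  have hN : NN n ≠ 0 := (NN_pos n).ne'
  have h0 : HasDerivAt (fun s => ta ν n s) (ν * NN n ^ 2) t := by
    unfold ta
    simpa using (hasDerivAt_id t).const_mul (ν * NN n ^ 2)
  have h1 := h0.pow l
  have h2 : HasDerivAt (fun s => Real.exp (-(j * ta ν n s)))
      (Real.exp (-(j * ta ν n t)) * (-(j * (ν * NN n ^ 2)))) t :=
    ((h0.const_mul (j : ℝ)).neg).exp
  have h3 := ((h1.const_mul (NN n ^ q)).mul h2).mul_const A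
  refine h3.congr_deriv ?_
  have e : NN n ^ (q + 2) = NN n ^ q * NN n ^ 2 := by
    rw [zpow_add₀ hN]; norm_cast
  rw [e]
  simp only [Pi.pow_apply]
  ring

theorem proj_single (i : Fin 3) :
    (EuclideanSpace.proj 2 : E3 →L[ℝ] ℝ) (EuclideanSpace.single i (1 : ℝ)) =
      if i = 2 then 1 else 0 := by
  fin_cases i <;> simp

theorem has_trig (g g' : ℝ → ℝ) (hg : ∀ s, HasDerivAt g (g' s) s) (a : ℝ) (x : E3) :
    HasFDerivAt (fun y : E3 => g (a * y 2))
      ((g' (a * x 2)) • (a • (EuclideanSpace.proj 2 : E3 →L[ℝ] ℝ))) x := by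
  have h1 : HasFDerivAt (fun y : E3 => a * y 2) (a • (EuclideanSpace.proj 2 : E3 →L[ℝ] ℝ)) x :=
    ((EuclideanSpace.proj 2 : E3 →L[ℝ] ℝ).hasFDerivAt).const_mul a
  exact (hg (a * x 2)).comp_hasFDerivAt x h1

theorem pd_trig (g g' : ℝ → ℝ) (hg : ∀ s, HasDerivAt g (g' s) s) (a C : ℝ) (ρ : E3 → ℝ)
    (hρ : Differentiable ℝ ρ) (i : Fin 3) (x : E3) :
    pd i (fun y => C * ρ y * g (a * y 2)) x =
      C * pd i ρ x * g (a * x 2) + (C * if i = 2 then a else 0) * ρ x * g' (a * x 2) := by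
  unfold pd
  have h1 : HasFDerivAt (fun y => C * ρ y * g (a * y 2)) _ x :=
    ((hρ x).hasFDerivAt.const_mul C).mul (has_trig g g' hg a x)
  rw [h1.fderiv]
  simp only [add_apply, smul_apply, smul_eq_mul, proj_single]
  split_ifs <;> ring

theorem diff_trig (g g' : ℝ → ℝ) (hg : ∀ s, HasDerivAt g (g' s) s) (a C : ℝ) (ρ : E3 → ℝ)
    (hρ : Differentiable ℝ ρ) : Differentiable ℝ (fun y : E3 => C * ρ y * g (a * y 2)) :=
  fun x => (((hρ x).hasFDerivAt.const_mul C).mul (has_trig g g' hg a x)).differentiableAt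

theorem pd_add {f g : E3 → ℝ} (hf : Differentiable ℝ f) (hg : Differentiable ℝ g) (i : Fin 3)
    (x : E3) : pd i (fun y => f y + g y) x = pd i f x + pd i g x := by
  unfold pd
  have h1 : HasFDerivAt (fun y => f y + g y) _ x := (hf x).hasFDerivAt.add (hg x).hasFDerivAt
  rw [h1.fderiv]
  rfl

theorem pd_smooth {ρ : E3 → ℝ} (h : ContDiff ℝ ∞ ρ) (i : Fin 3) : ContDiff ℝ ∞ (pd i ρ) := by
  unfold pd
  exact (h.fderiv_right (m := ∞) (by simp)).clm_apply contDiff_const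

theorem dd {ρ : E3 → ℝ} (h : ContDiff ℝ ∞ ρ) : Differentiable ℝ ρ := h.differentiable (by simp)

theorem pd2_trig (g g' g'' : ℝ → ℝ) (hg : ∀ s, HasDerivAt g (g' s) s)
    (hg' : ∀ s, HasDerivAt g' (g'' s) s) (a C : ℝ) (ρ : E3 → ℝ)
    (hρ : ContDiff ℝ ∞ ρ) (i : Fin 3) (x : E3) :
    pd i (pd i (fun y => C * ρ y * g (a * y 2))) x =
      C * pd i (pd i ρ) x * g (a * x 2) +
      2 * (C * (if i = 2 then a else 0)) * pd i ρ x * g' (a * x 2) +
      (C * if i = 2 then a ^ 2 else 0) * ρ x * g'' (a * x 2) := by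
  have e : pd i (fun y => C * ρ y * g (a * y 2)) = fun y => C * pd i ρ y * g (a * y 2) +
      (C * if i = 2 then a else 0) * ρ y * g' (a * y 2) := by
    funext y; exact pd_trig g g' hg a C ρ (dd hρ) i y
  rw [e, pd_add (diff_trig g g' hg a C _ (dd (pd_smooth hρ i)))
    (diff_trig g' g'' hg' a _ ρ (dd hρ)), pd_trig g g' hg a C _ (dd (pd_smooth hρ i)),
    pd_trig g' g'' hg' a _ ρ (dd hρ)]
  split_ifs <;> ring

theorem lap_trig (g g' g'' : ℝ → ℝ) (hg : ∀ s, HasDerivAt g (g' s) s)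
    (hg' : ∀ s, HasDerivAt g' (g'' s) s) (a C : ℝ) (ρ : E3 → ℝ)
    (hρ : ContDiff ℝ ∞ ρ) (x : E3) :
    ∑ i, pd i (pd i (fun y => C * ρ y * g (a * y 2))) x =
      C * (∑ i, pd i (pd i ρ) x) * g (a * x 2) + 2 * C * a * pd 2 ρ x * g' (a * x 2) +
      C * a ^ 2 * ρ x * g'' (a * x 2) := by
  simp_rw [pd2_trig g g' g'' hg hg' a C ρ hρ]
  simp [Fin.sum_univ_three]
  ring

theorem t_LIN : S_LIN := by
  intro ν q l j k ρ hρ n t x
  have hN : NN n ≠ 0 := (NN_pos n).ne'
  have e2 : NN n ^ (q + 2) = NN n ^ q * NN n ^ 2 := by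
    rw [zpow_add₀ hN]; norm_cast
  have e1 : NN n ^ (q + 1) = NN n ^ q * NN n := by rw [zpow_add₀ hN, zpow_one]
  constructor
  · have ht : dtm (Tc ν q l j k ρ) n t x =
        ν * l * (NN n ^ (q + 2) * ta ν n t ^ (l - 1) * Real.exp (-(j * ta ν n t)) *
          (ρ x * Real.cos (k * NN n * x 2)))
        - ν * j * (NN n ^ (q + 2) * ta ν n t ^ l * Real.exp (-(j * ta ν n t)) *
          (ρ x * Real.cos (k * NN n * x 2))) := by
      have h := (time_deriv ν q l j n t (ρ x * Real.cos (k * NN n * x 2))).deriv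
      rw [← h]
      unfold dtm Tc
      congr 1; funext s; ring
    have hx : ∑ i, dx i (dx i (Tc ν q l j k ρ)) n t x =
        (NN n ^ q * ta ν n t ^ l * Real.exp (-(j * ta ν n t))) * (∑ i, pd i (pd i ρ) x) *
          Real.cos (k * NN n * x 2) +
        2 * (NN n ^ q * ta ν n t ^ l * Real.exp (-(j * ta ν n t))) * (k * NN n) * pd 2 ρ x *
          (-Real.sin (k * NN n * x 2)) +
        (NN n ^ q * ta ν n t ^ l * Real.exp (-(j * ta ν n t))) * (k * NN n) ^ 2 * ρ x *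
          (-Real.cos (k * NN n * x 2)) :=
      lap_trig Real.cos (fun s => -Real.sin s) (fun s => -Real.cos s)
        (fun s => Real.hasDerivAt_cos s) (fun s => (Real.hasDerivAt_sin s).neg) (k * NN n)
        (NN n ^ q * ta ν n t ^ l * Real.exp (-(j * ta ν n t))) ρ hρ.1 x
    rw [ht, hx]
    unfold Tc Ts
    rw [e2, e1]
    ring
  · have ht : dtm (Ts ν q l j k ρ) n t x =
        ν * l * (NN n ^ (q + 2) * ta ν n t ^ (l - 1) * Real.exp (-(j * ta ν n t)) *
          (ρ x * Real.sin (k * NN n * x 2)))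
        - ν * j * (NN n ^ (q + 2) * ta ν n t ^ l * Real.exp (-(j * ta ν n t)) *
          (ρ x * Real.sin (k * NN n * x 2))) := by
      have h := (time_deriv ν q l j n t (ρ x * Real.sin (k * NN n * x 2))).deriv
      rw [← h]
      unfold dtm Ts
      congr 1; funext s; ring
    have hx : ∑ i, dx i (dx i (Ts ν q l j k ρ)) n t x =
        (NN n ^ q * ta ν n t ^ l * Real.exp (-(j * ta ν n t))) * (∑ i, pd i (pd i ρ) x) *
          Real.sin (k * NN n * x 2) +
        2 * (NN n ^ q * ta ν n t ^ l * Real.exp (-(j * ta ν n t))) * (k * NN n) * pd 2 ρ x *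
          (Real.cos (k * NN n * x 2)) +
        (NN n ^ q * ta ν n t ^ l * Real.exp (-(j * ta ν n t))) * (k * NN n) ^ 2 * ρ x *
          (-Real.sin (k * NN n * x 2)) :=
      lap_trig Real.sin Real.cos (fun s => -Real.sin s)
        (fun s => Real.hasDerivAt_sin s) (fun s => Real.hasDerivAt_cos s) (k * NN n)
        (NN n ^ q * ta ν n t ^ l * Real.exp (-(j * ta ν n t))) ρ hρ.1 x
    rw [ht, hx]
    unfold Tc Ts
    rw [e2, e1]
    ring

end Run7.h811.AX
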