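import Pool.Agent.Run7.h148.AX.Stm2

set_option autoImplicit false

/-! Project AX, piece CNV -/

open MeasureTheory Set Filter Topology
open scoped ENNReal ContDiff FourierTransform

namespace Run7.h811.AX

open Pool.Agent.Run7.h148.AX

theorem t_CNV : S_CNV := by
  intro a g ha hg ξ
  have hI : Integrable (fun z : E3 × E3 => a z.1 * g z.2) (volume.prod volume) := ha.mul_prod hg
  have hc : Continuous (fun z : E3 × E3 => ((𝐞 (inner ℝ z.1 z.2 - inner ℝ z.2 ξ) : Circle) : ℂ)) := by
    have h1 : Continuous (fun z : E3 × E3 => inner ℝ z.1 z.2 - inner ℝ z.2 ξ) := by fun_prop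
    exact continuous_subtype_val.comp (Real.continuous_fourierChar.comp h1)
  have hI2 : Integrable (fun z : E3 × E3 =>
      ((𝐞 (inner ℝ z.1 z.2 - inner ℝ z.2 ξ) : Circle) : ℂ) * (a z.1 * g z.2))
      (volume.prod volume) := by
    refine hI.bdd_mul (c := 1) hc.aestronglyMeasurable ?_
    filter_upwards with z
    rw [Circle.norm_coe]
  have hl : ∀ x : E3, (𝐞 (-(inner ℝ x ξ)) : Circle) • (𝓕⁻ a x * g x) =
      ∫ η : E3, ((𝐞 (inner ℝ η x - inner ℝ x ξ) : Circle) : ℂ) * (a η * g x) := by
    intro x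
    rw [Real.fourierInv_eq, Circle.smul_def, smul_eq_mul, ← mul_assoc, ← integral_const_mul,
      ← integral_mul_const]
    congr 1
    funext η
    rw [Circle.smul_def, smul_eq_mul, sub_eq_add_neg, AddChar.map_add_eq_mul, Circle.coe_mul]
    ring
  have hr : ∀ η : E3, a η * 𝓕 g (ξ - η) =
      ∫ x : E3, ((𝐞 (inner ℝ η x - inner ℝ x ξ) : Circle) : ℂ) * (a η * g x) := by
    intro η
    rw [Real.fourier_eq, ← integral_const_mul]
    congr 1
    funext x
    have e : -(inner ℝ x (ξ - η)) = inner ℝ η x - inner ℝ x ξ := by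
      rw [inner_sub_right, real_inner_comm x η]; ring
    rw [Circle.smul_def, smul_eq_mul, e]
    ring
  rw [Real.fourier_eq]
  simp_rw [hl, hr]
  exact integral_integral_swap (f := fun x η =>
    ((𝐞 (inner ℝ η x - inner ℝ x ξ) : Circle) : ℂ) * (a η * g x)) hI2.swap

end Run7.h811.AX
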